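import Pool.Graph.R_pool_sql_team_seeded_5cf16337.K3h3.MK.Main

/-!
# McKay bijections with degrees up to sign: cancellation of direct factors of prime power order

`wt (cl p) G` is the sum of the classes `[χ(1) ^ 2]` in the group ring `ℤ[(ℤ/p)ˣ]`, over the irreducible
characters of `G` of degree prime to `p`. For an `ℓ`-group `A`, `ℓ ≠ p`, it is coprime to `ℓ ^ 2 - [ℓ ^ 2]`
(as `∑ χ(1) ^ 2 = |A|` is prime to `ℓ ^ (2 (p - 1)) - 1`), and so it is not a zero divisor.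
-/

set_option autoImplicit false
set_option linter.unusedSectionVars false
set_option linter.style.haveILetI false

open scoped BigOperators Classical

noncomputable section

namespace Pool.Agent.Helper92.MK

open Pool.Agent.Helper884 Pool.Agent.H254R3.IN
open Pool.Agent.K3h3.MK Pool.Agent.K3h3.KB
open IC (Irr)

variable (p : ℕ) [hp : Fact p.Prime]

/-- the sum of the absolute values of the coefficients -/
def nm (x : RR p) : ℕ := ∑ v : (ZMod p)ˣ, (x.coeff v).natAbs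

theorem nm_eq_zero {x : RR p} (h : nm p x = 0) : x = 0 := by
  unfold nm at h
  rw [Finset.sum_eq_zero_iff] at h
  ext v
  exact Int.natAbs_eq_zero.mp (h v (Finset.mem_univ v))

theorem le_nm (u : (ZMod p)ˣ) (m : ℕ) (E : RR p) :
    m * nm p E ≤ nm p (((m : ℕ) : RR p) * E - E * MonoidAlgebra.single u 1) + nm p E := by
  have h1 : nm p E = ∑ v : (ZMod p)ˣ, (E.coeff (v * u⁻¹)).natAbs := by
    unfold nm
    exact (Fintype.sum_equiv (Equiv.mulRight u⁻¹) _ _ fun v => rfl).symm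
  have h2 : nm p (((m : ℕ) : RR p) * E - E * MonoidAlgebra.single u 1) + nm p E =
      ∑ v : (ZMod p)ˣ, (((m : ℤ) * E.coeff v - E.coeff (v * u⁻¹)).natAbs +
        (E.coeff (v * u⁻¹)).natAbs) := by
    rw [Finset.sum_add_distrib, ← h1]
    congr 1
    unfold nm
    refine Finset.sum_congr rfl fun v _ => ?_
    congr 1
    have h3 : (((m : ℕ) : RR p) * E - E * MonoidAlgebra.single u 1).coeff v =
        (((m : ℕ) : RR p) * E).coeff v - (E * MonoidAlgebra.single u 1).coeff v := rfl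
    rw [h3, coeff_natCast_mul, coeff_mul_single']
  rw [h2]
  unfold nm
  rw [Finset.mul_sum]
  refine Finset.sum_le_sum fun v _ => ?_
  have h4 : m * (E.coeff v).natAbs = ((m : ℤ) * E.coeff v).natAbs := by
    rw [Int.natAbs_mul, Int.natAbs_natCast]
  rw [h4]
  have h5 := Int.natAbs_add_le ((m : ℤ) * E.coeff v - E.coeff (v * u⁻¹)) (E.coeff (v * u⁻¹))
  rwa [sub_add_cancel] at h5

/-- descent -/
theorem eq_zero_of_mul {u : (ZMod p)ˣ} {m : ℕ} (hm : 3 ≤ m) {W : RR p}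
    (hW : IsCoprime (((m : ℕ) : RR p) - MonoidAlgebra.single u 1) W) :
    ∀ (n : ℕ) (D : RR p), nm p D ≤ n → D * W = 0 → D = 0 := by
  obtain ⟨a, b, hab⟩ := hW
  have key : ∀ D : RR p, D * W = 0 →
      D = ((m : ℕ) : RR p) * (a * D) - (a * D) * MonoidAlgebra.single u 1 := by
    intro D hD
    calc D = D * (a * (((m : ℕ) : RR p) - MonoidAlgebra.single u 1) + b * W) := by
          rw [hab, mul_one]
      _ = ((m : ℕ) : RR p) * (a * D) - (a * D) * MonoidAlgebra.single u 1 + b * (D * W) := by ring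
      _ = _ := by rw [hD, mul_zero, add_zero]
  intro n
  induction n using Nat.strong_induction_on with
  | _ n ih =>
    intro D hn hD
    by_cases h0 : nm p D = 0
    · exact nm_eq_zero p h0
    have h1 := key D hD
    have h2 := le_nm p u m (a * D)
    rw [← h1] at h2
    have h3 : 3 * nm p (a * D) ≤ m * nm p (a * D) := Nat.mul_le_mul_right _ hm
    have h4 : nm p (a * D) < n := by omega
    have h5 : (a * D) * W = 0 := by rw [mul_assoc, hD, mul_zero]
    have h6 := ih _ h4 (a * D) le_rfl h5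
    rw [h1, h6, mul_zero, zero_mul, sub_zero]

theorem sum_sq {G : Type} [Group G] [Fintype G] :
    ∑ χ ∈ Irr G, ndeg χ ^ 2 = Nat.card G := by
  have h := Pool.Agent.Y63.AWC.col_orth (G := G) 1 1
  have h1 : Nat.card {n : G // n * 1 * n⁻¹ = 1} = Nat.card G := by
    refine Nat.card_congr (Equiv.subtypeUnivEquiv fun n => ?_)
    rw [mul_one, mul_inv_cancel]
  rw [h1] at h
  have h2 : ((∑ χ ∈ Irr G, ndeg χ ^ 2 : ℕ) : ℂ) = (Nat.card G : ℂ) := by
    rw [← h]
    push_cast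
    refine Finset.sum_congr rfl fun χ hχ => ?_
    rw [ndeg_cast (mem_Irr.mp hχ), inv_one, sq]
  exact_mod_cast h2

theorem coprime_wt {ℓ : ℕ} (hℓ : ℓ.Prime) (h : (ℓ : ZMod p) ≠ 0) {A : Type} [Group A] [Finite A]
    (hA : IsPGroup ℓ A) :
    IsCoprime (((ℓ ^ 2 : ℕ) : RR p) - MonoidAlgebra.single ((Units.mk0 (ℓ : ZMod p) h) ^ 2) 1)
      (wt (cl p) A) := by
  haveI := Fintype.ofFinite A
  haveI : Fact ℓ.Prime := ⟨hℓ⟩
  rw [← cl_apply p h]
  obtain ⟨n, hn⟩ := (IsPGroup.iff_card (p := ℓ) (G := A)).mp hA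
  -- the difference
  have h1 : ((ℓ ^ 2 : ℕ) : RR p) - cl p ℓ ∣ ((ℓ ^ n : ℕ) : RR p) - wt (cl p) A := by
    rw [← hn, ← sum_sq, wt_eq, Nat.cast_sum, ← Finset.sum_sub_distrib]
    refine Finset.dvd_sum fun χ hχ => ?_
    have h2 : ndeg χ ∣ ℓ ^ n := by
      rw [← hn]
      exact Pool.Agent.Y63.AWC.deg_dvd (mem_Irr.mp hχ) (ndeg_cast (mem_Irr.mp hχ)).symm
    obtain ⟨j, -, hj⟩ := (Nat.dvd_prime_pow hℓ).mp h2
    have h3 : (((ℓ ^ j) ^ 2 : ℕ) : RR p) = ((ℓ ^ 2 : ℕ) : RR p) ^ j := by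
      push_cast
      ring
    rw [hj, map_pow, h3]
    exact sub_dvd_pow_sub_pow _ _ j
  have h2 : ((ℓ ^ 2 : ℕ) : RR p) - cl p ℓ ∣ ((ℓ ^ 2 : ℕ) : RR p) ^ (p - 1) - 1 := by
    have h3 := sub_dvd_pow_sub_pow (((ℓ ^ 2 : ℕ) : RR p)) (cl p ℓ) (p - 1)
    have h4 : (cl p ℓ) ^ (p - 1) = 1 := by
      rw [cl_apply p h, MonoidAlgebra.single_pow, one_pow, ← pow_mul, mul_comm 2, pow_mul,
        ZMod.units_pow_card_sub_one_eq_one, one_pow]
      rfl
    rwa [h4] at h3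
  obtain ⟨c, hc⟩ := h1
  obtain ⟨d, hd⟩ := h2
  have hp1 : 1 ≤ p - 1 := by have := hp.out.two_le; omega
  have h3 : IsCoprime ((ℓ ^ n : ℕ) : ℤ) (((ℓ ^ 2 : ℕ) : ℤ) ^ (p - 1) - 1) := by
    push_cast
    refine IsCoprime.pow_left ?_
    refine ⟨(ℓ : ℤ) ^ (2 * (p - 1) - 1), -1, ?_⟩
    rw [← pow_succ, ← pow_mul]
    have h4 : 2 * (p - 1) - 1 + 1 = 2 * (p - 1) := by omega
    rw [h4]
    ring
  have h4 := h3.map (Int.castRingHom (RR p))
  simp only [eq_intCast, Int.cast_natCast, Int.cast_sub, Int.cast_pow, Int.cast_one] at h4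
  obtain ⟨a, b, hab⟩ := h4
  refine ⟨a * c + b * d, a, ?_⟩
  have h5 : ((ℓ ^ n : ℕ) : RR p) = wt (cl p) A + (((ℓ ^ 2 : ℕ) : RR p) - cl p ℓ) * c := by
    rw [← hc]
    ring
  rw [h5, hd] at hab
  rw [← hab]
  ring

/-- **Cancellation of a factor of prime power order.** -/
theorem wt_iff {ℓ : ℕ} (hℓ : ℓ.Prime) (hne : ℓ ≠ p) {G A : Type} [Group G] [Finite G] [Group A]
    [Finite A] (hA : IsPGroup ℓ A) (P : Sylow p G) (R : Sylow p (G × A)) :
    wt (cl p) (G × A) = wt (cl p) (NN R) ↔ wt (cl p) G = wt (cl p) (NN P) := by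
  haveI : Fact ℓ.Prime := ⟨hℓ⟩
  have h0 : (ℓ : ZMod p) ≠ 0 := by
    intro h1
    exact hne ((Nat.prime_dvd_prime_iff_eq hp.out hℓ).mp ((ZMod.natCast_eq_zero_iff _ _).mp h1)).symm
  have hcop : ¬ p ∣ Nat.card A := by
    obtain ⟨n, hn⟩ := (IsPGroup.iff_card (p := ℓ) (G := A)).mp hA
    rw [hn]
    intro h1
    exact hne ((Nat.prime_dvd_prime_iff_eq hp.out hℓ).mp (hp.out.dvd_of_dvd_pow h1)).symm
  have h2 := del_prod (cl p) hcop P R
  have hm : 3 ≤ ℓ ^ 2 := by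
    have := hℓ.two_le
    nlinarith
  constructor
  · intro h
    rw [h, sub_self] at h2
    exact sub_eq_zero.mp (eq_zero_of_mul p hm (coprime_wt p hℓ h0 hA) _ _ le_rfl h2.symm)
  · intro h
    rw [h, sub_self, zero_mul] at h2
    exact sub_eq_zero.mp h2

end Pool.Agent.Helper92.MK
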