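import Pool.Agent.Helper92.MK.Cancel

/-!
# McKay bijections with degrees up to sign: cancellation of nilpotent factors and of factors of odd order
-/

set_option autoImplicit false
set_option linter.unusedSectionVars false
set_option linter.style.haveILetI false

open scoped BigOperators Classical

noncomputable section

namespace Pool.Agent.Helper92.MK

open Pool.Agent.Helper884 Pool.Agent.H254R3.IN
open Pool.Agent.K3h3.MK Pool.Agent.K3h3.KB
open IC (Irr)

variable (p : ℕ) [hp : Fact p.Prime]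

/-- the element of `A` in the group ring is not a zero divisor -/
def Reg (A : Type) [Group A] [Finite A] : Prop := ∀ D : RR p, D * wt (cl p) A = 0 → D = 0

theorem reg_prod {A B : Type} [Group A] [Group B] [Finite A] [Finite B] (hA : Reg p A)
    (hB : Reg p B) : Reg p (A × B) := by
  intro D hD
  rw [wt_prod, ← mul_assoc] at hD
  exact hA _ (hB _ hD)

theorem reg_congr {A B : Type} [Group A] [Group B] [Finite A] [Finite B] (e : A ≃* B)
    (h : Reg p A) : Reg p B := by
  intro D hD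
  rw [← wt_congr (cl p) e] at hD
  exact h D hD

theorem reg_pgroup {ℓ : ℕ} (hℓ : ℓ.Prime) (hne : ℓ ≠ p) {A : Type} [Group A] [Finite A]
    (hA : IsPGroup ℓ A) : Reg p A := by
  intro D hD
  have h0 : (ℓ : ZMod p) ≠ 0 := by
    intro h1
    exact hne ((Nat.prime_dvd_prime_iff_eq hp.out hℓ).mp ((ZMod.natCast_eq_zero_iff _ _).mp h1)).symm
  have hm : 3 ≤ ℓ ^ 2 := by
    have := hℓ.two_le
    nlinarith
  exact eq_zero_of_mul p hm (coprime_wt p hℓ h0 hA) _ _ le_rfl hD

theorem exists_ell : ∃ ℓ : ℕ, ℓ.Prime ∧ ℓ ≠ p := by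
  obtain ⟨q, h1, h2⟩ := Nat.exists_infinite_primes (p + 1)
  exact ⟨q, h2, by omega⟩

theorem reg_sub {A : Type} [Group A] [Finite A] [Subsingleton A] : Reg p A := by
  obtain ⟨ℓ, h1, h2⟩ := exists_ell p
  refine reg_pgroup p h1 h2 fun g => ⟨0, Subsingleton.elim _ _⟩

/-- products over `Fin (n + 1)` -/
def consM {n : ℕ} (X : Fin (n + 1) → Type) [∀ i, Group (X i)] :
    (X 0 × ∀ i : Fin n, X i.succ) ≃* (∀ i, X i) where
  toEquiv := Fin.consEquiv X
  map_mul' a b := by
    funext i
    exact Fin.cases rfl (fun j => rfl) i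

theorem reg_fin : ∀ (n : ℕ) (X : Fin n → Type) [∀ i, Group (X i)] [∀ i, Finite (X i)],
    (∀ i, Reg p (X i)) → Reg p (∀ i, X i)
  | 0, _, _, _, _ => reg_sub p
  | n + 1, X, _, _, h =>
    reg_congr p (consM X) (reg_prod p (h 0) (reg_fin n (fun i => X i.succ) fun i => h i.succ))

theorem reg_pi {ι : Type} [Finite ι] (X : ι → Type) [∀ i, Group (X i)] [∀ i, Finite (X i)]
    (h : ∀ i, Reg p (X i)) : Reg p (∀ i, X i) := by
  obtain ⟨n, ⟨e⟩⟩ := Finite.exists_equiv_fin ι
  have h1 := reg_fin p n (fun i => X (e.symm i)) (fun i => h _)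
  let φ : (∀ i, X i) →* (∀ a, X (e.symm a)) :=
    { toFun := fun f a => f (e.symm a)
      map_one' := rfl
      map_mul' := fun _ _ => rfl }
  have hφ : Function.Bijective φ := (Equiv.piCongrLeft X e.symm).symm.bijective
  exact reg_congr p (MulEquiv.ofBijective φ hφ).symm h1

theorem reg_nilpotent {A : Type} [Group A] [Finite A] (hA : Group.IsNilpotent A)
    (hp' : ¬ p ∣ Nat.card A) : Reg p A := by
  obtain ⟨e⟩ := (Group.isNilpotent_of_finite_tfae (G := A)).out 0 4 |>.mp hA
  refine reg_congr p e (reg_pi p _ fun q => ?_)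
  have hq : (q : ℕ).Prime := Nat.prime_of_mem_primeFactors q.2
  haveI : Fact (q : ℕ).Prime := ⟨hq⟩
  have hqp : (q : ℕ) ≠ p := by
    intro h
    exact hp' (h ▸ Nat.dvd_of_mem_primeFactors q.2)
  refine reg_pgroup p hq hqp ?_
  haveI : Fintype (Sylow (q : ℕ) A) := Fintype.ofFinite _
  have h1 : ∀ P : Sylow (q : ℕ) A, ∃ n, Nat.card P = (q : ℕ) ^ n := fun P =>
    (IsPGroup.iff_card (p := (q : ℕ))).mp P.isPGroup'
  choose n hn using h1
  refine (IsPGroup.iff_card (p := (q : ℕ))).mpr ⟨∑ P, n P, ?_⟩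
  rw [Nat.card_pi, Finset.prod_congr rfl fun P _ => hn P, Finset.prod_pow_eq_pow_sum]

/-! ### odd order -/

theorem half_not_integral {n : ℕ} (hn : Odd n) {c : ℂ} (hc : IsIntegral ℤ c) :
    (n : ℂ) ≠ 2 * c := by
  intro h
  have h1 : c = algebraMap ℚ ℂ ((n : ℚ) / 2) := by
    have h2 : (2 : ℂ) ≠ 0 := two_ne_zero
    have h3 : algebraMap ℚ ℂ ((n : ℚ) / 2) = (n : ℂ) / 2 := by simp
    rw [h3, h]
    field_simp
  rw [h1, isIntegral_algebraMap_iff (algebraMap ℚ ℂ).injective] at hc
  obtain ⟨z, hz⟩ := IsIntegrallyClosed.isIntegral_iff.mp hc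
  have h4 : (2 : ℚ) * (z : ℚ) = (n : ℚ) := by
    have h5 : (algebraMap ℤ ℚ) z = (z : ℚ) := rfl
    rw [h5] at hz
    rw [hz]
    ring
  have h6 : 2 * z = (n : ℤ) := by exact_mod_cast h4
  obtain ⟨k, hk⟩ := hn
  omega

theorem odd_sq {A : Type} [Group A] [Finite A] (hA : Odd (Nat.card A)) {g : A} (hg : g⁻¹ = g) :
    g = 1 := by
  have h1 : g ^ 2 = 1 := by
    rw [sq]
    nth_rewrite 1 [← hg]
    exact inv_mul_cancel g
  have h2 := orderOf_dvd_of_pow_eq_one h1
  have h3 := orderOf_dvd_natCard g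
  have h4 : orderOf g ∣ 1 := by
    have h5 : Nat.Coprime (Nat.card A) 2 := Nat.coprime_two_right.mpr hA
    exact h5 ▸ Nat.dvd_gcd h3 h2
  exact orderOf_eq_one_iff.mp (Nat.dvd_one.mp h4)

theorem one_irr (A : Type) [Group A] [Fintype A] : IsIrr (fun _ : A => (1 : ℂ)) := by
  have h := lin_irr (G := A) 1
  exact h

/-- **Burnside**: a group of odd order has no real irreducible character except the trivial one -/
theorem eq_one_of_real {A : Type} [Group A] [Fintype A] (hA : Odd (Nat.card A)) {χ : A → ℂ}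
    (hχ : IsIrr χ) (hr : ∀ g, (starRingEnd ℂ) (χ g) = χ g) : χ = fun _ => 1 := by
  by_contra hne
  have h1 := IC.B_irr hχ (one_irr A)
  rw [if_neg hne] at h1
  unfold IC.B at h1
  have h2 : ∑ g : A, χ g = 0 := by
    rcases mul_eq_zero.mp h1 with h | h
    · exact absurd h (inv_ne_zero IC.cardG_ne)
    · simpa using h
  let R : Subalgebra ℤ ℂ := integralClosure ℤ ℂ
  let f : A → R := fun g => ⟨χ g, Pool.Agent.Y63.AWC.isIntegral_char hχ g⟩
  have h3 : ∑ g : A, f g = 0 := by
    apply Subtype.ext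
    rw [AddSubmonoidClass.coe_finsetSum]
    exact h2
  have hinv : ∀ g, f g⁻¹ = f g := fun g => Subtype.ext (by
    change χ g⁻¹ = χ g
    rw [Pool.Agent.Y62.conj_char hχ, hr])
  let π := Ideal.Quotient.mk (Ideal.span {(2 : R)})
  have htwo : π 2 = 0 := Ideal.Quotient.eq_zero_iff_mem.mpr (Ideal.mem_span_singleton_self _)
  have h4 : ∑ g ∈ Finset.univ.erase (1 : A), π (f g) = 0 := by
    refine Finset.sum_involution (fun g _ => g⁻¹) ?_ ?_ ?_ ?_
    · intro g _
      rw [hinv, ← map_add, ← two_mul, map_mul, htwo, zero_mul]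
    · intro g hg _ h
      exact (Finset.mem_erase.mp hg).1 (odd_sq hA h)
    · intro g hg
      exact Finset.mem_erase.mpr ⟨fun h => (Finset.mem_erase.mp hg).1 (inv_eq_one.mp h),
        Finset.mem_univ _⟩
    · intro g _
      exact inv_inv g
  have h5 : π (f 1) = 0 := by
    have h6 := congrArg π h3
    rw [map_sum, map_zero, ← Finset.add_sum_erase _ _ (Finset.mem_univ (1 : A)), h4,
      add_zero] at h6
    exact h6
  obtain ⟨c, hc⟩ := Ideal.mem_span_singleton'.mp (Ideal.Quotient.eq_zero_iff_mem.mp h5)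
  have h7 : (ndeg χ : ℂ) = 2 * (c : ℂ) := by
    rw [ndeg_cast hχ]
    have h8 := congrArg (fun x : R => (x : ℂ)) hc
    rw [mul_comm]
    exact h8.symm
  have h9 : Odd (ndeg χ) :=
    Odd.of_dvd_nat hA (Pool.Agent.Y63.AWC.deg_dvd hχ (ndeg_cast hχ).symm)
  exact half_not_integral h9 c.2 h7

theorem nm_two (x : RR p) : nm p (2 * x) = 2 * nm p x := by
  unfold nm
  rw [Finset.mul_sum]
  refine Finset.sum_congr rfl fun v _ => ?_
  have h1 : (2 * x).coeff v = (2 : ℤ) * x.coeff v := coeff_natCast_mul p 2 x v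
  rw [h1, Int.natAbs_mul]
  rfl

theorem eq_zero_of_two {W : RR p} (hW : IsCoprime (2 : RR p) W) :
    ∀ (n : ℕ) (D : RR p), nm p D ≤ n → D * W = 0 → D = 0 := by
  obtain ⟨a, b, hab⟩ := hW
  intro n
  induction n using Nat.strong_induction_on with
  | _ n ih =>
    intro D hn hD
    by_cases h0 : nm p D = 0
    · exact nm_eq_zero p h0
    have h1 : D = 2 * (a * D) := by
      calc D = D * (a * 2 + b * W) := by rw [hab, mul_one]
        _ = 2 * (a * D) + b * (D * W) := by ring
        _ = _ := by rw [hD, mul_zero, add_zero]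
    have h2 := nm_two p (a * D)
    rw [← h1] at h2
    have h6 := ih (nm p (a * D)) (by omega) (a * D) le_rfl (by rw [mul_assoc, hD, mul_zero])
    rw [h1, h6, mul_zero]

theorem reg_odd {A : Type} [Group A] [Finite A] (hA : Odd (Nat.card A)) : Reg p A := by
  haveI := Fintype.ofFinite A
  intro D hD
  refine eq_zero_of_two p ?_ _ D le_rfl hD
  let π := Ideal.Quotient.mk (Ideal.span {(2 : RR p)})
  have hmem : (fun _ : A => (1 : ℂ)) ∈ Irr A := mem_Irr.mpr (one_irr A)
  have h4 : ∑ χ ∈ (Irr A).erase (fun _ => 1), π (cl p (ndeg χ)) = 0 := by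
    refine Finset.sum_involution (fun χ _ => fun g => (starRingEnd ℂ) (χ g)) ?_ ?_ ?_ ?_
    · intro χ _
      have h5 : ndeg (fun g => (starRingEnd ℂ) (χ g)) = ndeg χ := by
        unfold ndeg
        rw [Complex.conj_re]
      rw [h5, ← map_add, ← two_mul]
      exact Ideal.Quotient.eq_zero_iff_mem.mpr
        (Ideal.mul_mem_right _ _ (Ideal.mem_span_singleton_self _))
    · intro χ hχ _ h
      obtain ⟨h5, h6⟩ := Finset.mem_erase.mp hχ
      exact h5 (eq_one_of_real hA (mem_Irr.mp h6) fun g => congrFun h g)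
    · intro χ hχ
      obtain ⟨h5, h6⟩ := Finset.mem_erase.mp hχ
      refine Finset.mem_erase.mpr ⟨fun h => h5 ?_, mem_Irr.mpr
        (Pool.Agent.Q90.WR.irr_gal (starRingAut (R := ℂ)) (mem_Irr.mp h6))⟩
      funext g
      have h7 := congrFun h g
      have h8 := congrArg (starRingEnd ℂ) h7
      simpa using h8
    · intro χ _
      funext g
      exact Complex.conj_conj _
  have h5 : π (wt (cl p) A) = 1 := by
    rw [wt_eq, map_sum, ← Finset.add_sum_erase _ _ hmem, h4, add_zero]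
    have h6 : ndeg (fun _ : A => (1 : ℂ)) = 1 := ndeg_eq (by simp)
    rw [h6, map_one, map_one]
  have h6 : π (wt (cl p) A - 1) = 0 := by rw [map_sub, h5, map_one, sub_self]
  obtain ⟨c, hc⟩ := Ideal.mem_span_singleton'.mp (Ideal.Quotient.eq_zero_iff_mem.mp h6)
  exact ⟨-c, 1, by linear_combination (-1 : RR p) * hc⟩

/-- **Cancellation.** -/
theorem wt_iff_of_reg {G A : Type} [Group G] [Finite G] [Group A] [Finite A] (hA : Reg p A)
    (hcop : ¬ p ∣ Nat.card A) (P : Sylow p G) (R : Sylow p (G × A)) :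
    wt (cl p) (G × A) = wt (cl p) (NN R) ↔ wt (cl p) G = wt (cl p) (NN P) := by
  have h2 := del_prod (cl p) hcop P R
  constructor
  · intro h
    rw [h, sub_self] at h2
    exact sub_eq_zero.mp (hA _ h2.symm)
  · intro h
    rw [h, sub_self, zero_mul] at h2
    exact sub_eq_zero.mp h2

end Pool.Agent.Helper92.MK
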